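import Mathlib
import Pool.Agent.V117.KosMod
import Pool.Agent.V117.KosDim

/-! The Betti numbers of the semigroup rings of `S_{2,4}` and `S_{2,5}`. -/

namespace Pool.Agent.Results.MP_c132d1_al.BettiS24

open Polynomial Pool.Agent.V117.KosMod Pool.Agent.V117.KosDim

universe u

/-- `J_{m,n} = {0, …, e - 1} ∖ {m, n}`. -/
def J (e m n : ℕ) : Finset ℕ := (Finset.range e).filter fun i => i ≠ m ∧ i ≠ n

/-- The semigroup ring `k[S_{m,n}] ⊆ k[t]`: the subalgebra generated by `t^{e+i}`, `i ∈ J_{m,n}`. -/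
noncomputable def kS (K : Type u) [Field K] (e m n : ℕ) : Subalgebra K K[X] :=
  Algebra.adjoin K ((fun i => (X : K[X]) ^ (e + i)) '' (J e m n : Set ℕ))

/-- The action of the variable `X_i`, `i ∈ J_{m,n}`, on `k[S_{m,n}]`: multiplication by
`t^{e+i}`. -/
noncomputable def mulX (K : Type u) [Field K] (e m n i : ℕ) : kS K e m n →ₗ[K] kS K e m n :=
  open Classical in
  if h : i ∈ J e m n then
    LinearMap.mulLeft K ⟨(X : K[X]) ^ (e + i), Algebra.subset_adjoin ⟨i, h, rfl⟩⟩
  else 0

/-- The Betti number `β_j(m,n) = dim_k Tor_j(k[S_{m,n}], k)` over `k[X_i : i ∈ J_{m,n}]`: the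
dimension of the `j`-th homology of the Koszul complex of the variables `X_i` with coefficients in
`k[S_{m,n}]`. -/
noncomputable def betti (K : Type u) [Field K] (e m n j : ℕ) : Cardinal :=
  Module.rank K (Hn (J e m n) (mulX K e m n) j)

/-- the gaps of `S_{2,n}` -/
def gap (e n s : ℕ) : Prop := (1 ≤ s ∧ s < e) ∨ s = e + 2 ∨ s = e + n

variable {K : Type u} [Field K] {e n : ℕ}

lemma mulX_coe {i m : ℕ} (h : i ∈ J e m n) (p : kS K e m n) :
    ((mulX K e m n i p : kS K e m n) : K[X]) = X ^ (e + i) * (p : K[X]) := by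
  unfold mulX
  rw [dif_pos h]
  rfl

lemma gap_mem (he : 6 ≤ e) (hn : n = 4 ∨ n = 5) {p : K[X]} (hp : p ∈ kS K e 2 n) :
    ∀ s, gap e n s → p.coeff s = 0 := by
  unfold kS at hp
  induction hp using Algebra.adjoin_induction with
  | mem x hx =>
    obtain ⟨i, hi, rfl⟩ := hx
    intro s hs
    have hi2 : i ∈ J e 2 n := hi
    unfold J at hi2
    rw [Finset.mem_filter, Finset.mem_range] at hi2
    show (X ^ (e + i) : K[X]).coeff s = 0
    rw [coeff_X_pow, if_neg]
    unfold gap at hs
    omega
  | algebraMap r =>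
    intro s hs
    rw [Polynomial.algebraMap_apply, coeff_C, if_neg]
    unfold gap at hs
    omega
  | add x y _ _ hx hy =>
    intro s hs
    rw [coeff_add, hx s hs, hy s hs, add_zero]
  | mul x y _ _ hx hy =>
    intro s hs
    rw [coeff_mul]
    refine Finset.sum_eq_zero fun ab hab => ?_
    have hab := Finset.HasAntidiagonal.mem_antidiagonal.1 hab
    have : gap e n ab.1 ∨ gap e n ab.2 := by
      unfold gap at hs ⊢
      omega
    rcases this with h | h
    · rw [hx _ h, zero_mul]
    · rw [hy _ h, mul_zero]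

lemma gen_mem {i : ℕ} (h : i ∈ J e 2 n) : (X : K[X]) ^ (e + i) ∈ kS K e 2 n :=
  Algebra.subset_adjoin ⟨i, h, rfl⟩

lemma mem_J {i : ℕ} : i ∈ J e 2 n ↔ i < e ∧ i ≠ 2 ∧ i ≠ n := by
  unfold J
  rw [Finset.mem_filter, Finset.mem_range]

lemma X_pow_mem (he : 6 ≤ e) (hn : n = 4 ∨ n = 5) (s : ℕ) (hs : ¬ gap e n s) :
    (X : K[X]) ^ s ∈ kS K e 2 n := by
  induction s using Nat.strong_induction_on with
  | _ s ih =>
    unfold gap at hs
    by_cases h0 : s = 0
    · rw [h0, pow_zero]
      exact one_mem _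
    by_cases h1 : s < 2 * e
    · obtain ⟨i, rfl⟩ := Nat.exists_eq_add_of_le (show e ≤ s by omega)
      exact gen_mem (mem_J.2 (by omega))
    by_cases h2 : s = 2 * e + 2
    · rw [h2, show 2 * e + 2 = (e + 1) + (e + 1) by ring, pow_add]
      exact mul_mem (gen_mem (mem_J.2 (by omega))) (gen_mem (mem_J.2 (by omega)))
    by_cases h3 : s = 2 * e + n
    · rw [h3, show 2 * e + n = (e + 1) + (e + (n - 1)) by omega, pow_add]
      exact mul_mem (gen_mem (mem_J.2 (by omega))) (gen_mem (mem_J.2 (by omega)))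
    · obtain ⟨t, rfl⟩ := Nat.exists_eq_add_of_le (show e ≤ s by omega)
      rw [pow_add]
      refine mul_mem ?_ (ih t (by omega) (by unfold gap; omega))
      have := gen_mem (K := K) (e := e) (n := n) (i := 0) (mem_J.2 (by omega))
      simpa using this

lemma mem_iff (he : 6 ≤ e) (hn : n = 4 ∨ n = 5) {p : K[X]} :
    p ∈ kS K e 2 n ↔ ∀ s, gap e n s → p.coeff s = 0 := by
  refine ⟨gap_mem he hn, fun h => ?_⟩
  rw [p.as_sum_support_C_mul_X_pow]
  refine sum_mem fun s hs => ?_
  rw [mem_support_iff] at hs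
  have h2 : (X : K[X]) ^ s ∈ kS K e 2 n := X_pow_mem he hn s fun hg => hs (h s hg)
  rw [← Polynomial.algebraMap_eq]
  exact mul_mem (Subalgebra.algebraMap_mem _ _) h2

/-- the Apéry elements -/
def ap (e n r : ℕ) : ℕ := if r = 0 then 0 else if r = 2 ∨ r = n then 2 * e + r else e + r

/-- reading off the coefficients at the Apéry elements -/
noncomputable def pr (K : Type u) [Field K] (e n : ℕ) : kS K e 2 n →ₗ[K] (Fin e → K) where
  toFun p := fun r => (p : K[X]).coeff (ap e n r)
  map_add' p q := by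
    funext r
    simp
  map_smul' c p := by
    funext r
    simp

lemma pr_surj (he : 6 ≤ e) (hn : n = 4 ∨ n = 5) : Function.Surjective (pr K e n) := by
  intro g
  have hc : ∀ s, (∑ r : Fin e, C (g r) * X ^ (ap e n r) : K[X]).coeff s =
      ∑ r : Fin e, if s = ap e n r then g r else 0 := by
    intro s
    rw [finsetSum_coeff]
    refine Finset.sum_congr rfl fun r _ => ?_
    rw [coeff_C_mul_X_pow]
  refine ⟨⟨∑ r : Fin e, C (g r) * X ^ (ap e n r), ?_⟩, ?_⟩
  · rw [mem_iff he hn]
    intro s hs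
    rw [hc]
    refine Finset.sum_eq_zero fun r _ => ?_
    rw [if_neg]
    have := r.2
    unfold gap at hs
    unfold ap
    split_ifs <;> omega
  · funext r
    show (∑ r : Fin e, C (g r) * X ^ (ap e n r) : K[X]).coeff (ap e n r) = g r
    rw [hc, Finset.sum_eq_single r]
    · rw [if_pos rfl]
    · intro r' _ hne
      rw [if_neg]
      intro h
      apply hne
      apply Fin.ext
      have h1 := r.2
      have h2 := r'.2
      unfold ap at h
      split_ifs at h <;> omega
    · intro h
      exact absurd (Finset.mem_univ _) h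

lemma coeff_mulX {i : ℕ} (h : i ∈ J e 2 n) (p : kS K e 2 n) (s : ℕ) :
    ((mulX K e 2 n i p : kS K e 2 n) : K[X]).coeff s =
      if e + i ≤ s then (p : K[X]).coeff (s - (e + i)) else 0 := by
  rw [mulX_coe h, coeff_X_pow_mul']

lemma pr_ker (he : 6 ≤ e) (hn : n = 4 ∨ n = 5) (p : kS K e 2 n) :
    pr K e n p = 0 ↔ ∃ q, mulX K e 2 n 0 q = p := by
  have h0 : 0 ∈ J e 2 n := mem_J.2 (by omega)
  constructor
  · intro h
    have hcoef : ∀ r < e, (p : K[X]).coeff (ap e n r) = 0 := fun r hr => congrFun h ⟨r, hr⟩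
    have hg := (mem_iff he hn).1 p.2
    have hdvd : (X : K[X]) ^ e ∣ (p : K[X]) := by
      rw [X_pow_dvd_iff]
      intro d hd
      by_cases hd0 : d = 0
      · have := hcoef 0 (by omega)
        unfold ap at this
        rw [if_pos rfl] at this
        rw [hd0, this]
      · exact hg d (Or.inl ⟨by omega, hd⟩)
    obtain ⟨q, hq⟩ := hdvd
    have hqm : q ∈ kS K e 2 n := by
      rw [mem_iff he hn]
      intro s hs
      have h2 : q.coeff s = (p : K[X]).coeff (s + e) := by
        rw [hq, coeff_X_pow_mul]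
      rw [h2]
      unfold gap at hs
      rcases hs with ⟨h3, h4⟩ | h3 | h3
      · by_cases h5 : s = 2 ∨ s = n
        · exact hg _ (by unfold gap; omega)
        · have := hcoef s h4
          unfold ap at this
          rw [if_neg (by omega), if_neg h5] at this
          rw [add_comm]
          exact this
      · have := hcoef 2 (by omega)
        unfold ap at this
        rw [if_neg (by omega), if_pos (Or.inl rfl)] at this
        rw [h3, show e + 2 + e = 2 * e + 2 by ring]
        exact this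
      · have := hcoef n (by omega)
        unfold ap at this
        rw [if_neg (by omega), if_pos (Or.inr rfl)] at this
        rw [h3, show e + n + e = 2 * e + n by ring]
        exact this
    refine ⟨⟨q, hqm⟩, ?_⟩
    apply Subtype.ext
    rw [mulX_coe h0, add_zero, hq]
  · rintro ⟨q, rfl⟩
    funext r
    show ((mulX K e 2 n 0 q : kS K e 2 n) : K[X]).coeff (ap e n r) = 0
    rw [coeff_mulX h0]
    have hg := (mem_iff he hn).1 q.2
    have hr := r.2
    split_ifs with h
    · apply hg
      unfold ap at h ⊢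
      unfold gap
      split_ifs at h ⊢ <;> omega
    · rfl

lemma idx (he : 6 ≤ e) (hn : n = 4 ∨ n = 5) :
    Idx (e := e) ⟨2, by omega⟩ ⟨n, by omega⟩ ⟨n - 1, by omega⟩ ((J e 2 n).erase 0) where
  lt i hi := (mem_J.1 (Finset.mem_of_mem_erase hi)).1
  pos i hi := Nat.pos_of_ne_zero (Finset.ne_of_mem_erase hi)
  one := Finset.mem_erase.2 ⟨one_ne_zero, mem_J.2 (by omega)⟩
  hy := Finset.mem_erase.2 ⟨by show n - 1 ≠ 0; omega, mem_J.2 (by
    show n - 1 < e ∧ n - 1 ≠ 2 ∧ n - 1 ≠ n
    omega)⟩
  yne := by show n - 1 ≠ 1; omega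
  hm h := (mem_J.1 (Finset.mem_of_mem_erase h)).2.1 rfl
  hn h := (mem_J.1 (Finset.mem_of_mem_erase h)).2.2 rfl
  m0 := by show 2 ≠ 0; omega
  n0 := by show n ≠ 0; omega
  mn := by
    intro h
    have : 2 = n := congrArg Fin.val h
    omega
  all r hr := by
    show r ∈ (J e 2 n).erase 0 ∨ r = 0 ∨ r = 2 ∨ r = n
    by_cases h : r = 0 ∨ r = 2 ∨ r = n
    · exact Or.inr h
    · exact Or.inl (Finset.mem_erase.2 ⟨by omega, mem_J.2 (by omega)⟩)

lemma pr_mul (he : 6 ≤ e) (hn : n = 4 ∨ n = 5) (i : ℕ) (hi : i ∈ (J e 2 n).erase 0)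
    (p : kS K e 2 n) :
    pr K e n (mulX K e 2 n i p) =
      act (⟨2, by omega⟩ : Fin e) ⟨n, by omega⟩ ⟨n - 1, by omega⟩ (by omega) i (pr K e n p) := by
  rw [Finset.mem_erase] at hi
  have hiJ := mem_J.1 hi.2
  have hg := (mem_iff he hn).1 p.2
  funext r
  have hr := r.2
  rw [act_apply]
  show ((mulX K e 2 n i p : kS K e 2 n) : K[X]).coeff (ap e n r) = _
  rw [coeff_mulX hi.2]
  have e0 : pr K e n p ⟨0, by omega⟩ = (p : K[X]).coeff 0 := rfl
  have e1 : pr K e n p ⟨1, by omega⟩ = (p : K[X]).coeff (e + 1) := by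
    show (p : K[X]).coeff (ap e n 1) = _
    unfold ap
    rw [if_neg one_ne_zero, if_neg (by omega)]
  have ey : pr K e n p ⟨n - 1, by omega⟩ = (p : K[X]).coeff (e + (n - 1)) := by
    show (p : K[X]).coeff (ap e n (n - 1)) = _
    unfold ap
    rw [if_neg (by omega), if_neg (by omega)]
  rw [e0, e1, ey]
  by_cases hri : r.1 = i
  · rw [if_pos hri]
    have h2 : ap e n r = e + i := by
      unfold ap
      rw [if_neg (by omega), if_neg (by omega), hri]
    rw [h2, if_pos le_rfl, Nat.sub_self]
  · rw [if_neg hri]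
    by_cases hrm : r.1 = 2
    · rw [if_pos (Fin.ext hrm)]
      have h2 : ap e n r = 2 * e + 2 := by
        unfold ap
        rw [if_neg (by omega), if_pos (by omega), hrm]
      rw [h2, if_pos (by omega)]
      by_cases hi1 : i = 1
      · rw [if_pos hi1, hi1]
        congr 1
        omega
      · rw [if_neg hi1]
        apply hg
        unfold gap
        omega
    · rw [if_neg (fun h => hrm (congrArg Fin.val h))]
      by_cases hrn : r.1 = n
      · rw [if_pos (Fin.ext hrn)]
        have h2 : ap e n r = 2 * e + n := by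
          unfold ap
          rw [if_neg (by omega), if_pos (by omega), hrn]
        rw [h2, if_pos (by omega)]
        by_cases hi1 : i = 1
        · rw [if_pos hi1, hi1]
          congr 1
          omega
        · rw [if_neg hi1]
          by_cases hiy : i = n - 1
          · rw [if_pos hiy, hiy]
            congr 1
            omega
          · rw [if_neg hiy]
            apply hg
            unfold gap
            omega
      · rw [if_neg (fun h => hrn (congrArg Fin.val h))]
        split_ifs with h3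
        · apply hg
          unfold ap at h3 ⊢
          unfold gap
          split_ifs at h3 ⊢ <;> omega
        · rfl

theorem betti_eq (he : 6 ≤ e) (hn : n = 4 ∨ n = 5) (j : ℕ) :
    betti K e 2 n (j + 1) = (((j + 1) * (e - 2).choose (j + 2) : ℕ) : Cardinal) := by
  have h0 : 0 ∈ J e 2 n := mem_J.2 (by omega)
  obtain ⟨E⟩ := reduce (K := K) (U := J e 2 n) (x := mulX K e 2 n)
    (y := act (⟨2, by omega⟩ : Fin e) ⟨n, by omega⟩ ⟨n - 1, by omega⟩ (by omega))
    (π := pr K e n) h0 (by
      intro i hi k hk p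
      apply Subtype.ext
      rw [mulX_coe hi, mulX_coe hk, mulX_coe hk, mulX_coe hi]
      ring) (by
      intro p q hpq
      apply Subtype.ext
      have h1 := congrArg Subtype.val hpq
      rw [mulX_coe h0, mulX_coe h0] at h1
      exact mul_left_cancel₀ (pow_ne_zero _ X_ne_zero) h1)
    (pr_surj he hn) (pr_ker he hn) (pr_mul he hn) (j + 1)
  have hcard : ((J e 2 n).erase 0).card + 3 = e := by
    have h1 : (J e 2 n).erase 0 = (Finset.range e) \ {0, 2, n} := by
      ext z
      rw [Finset.mem_erase, mem_J, Finset.mem_sdiff, Finset.mem_range, Finset.mem_insert,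
        Finset.mem_insert, Finset.mem_singleton]
      tauto
    have h2 : ({0, 2, n} : Finset ℕ) ⊆ Finset.range e := by
      intro z hz
      rw [Finset.mem_insert, Finset.mem_insert, Finset.mem_singleton] at hz
      rw [Finset.mem_range]
      omega
    have h3 : ({0, 2, n} : Finset ℕ).card = 3 := by
      rcases hn with rfl | rfl <;> rfl
    rw [h1, Finset.card_sdiff_of_subset h2, Finset.card_range, h3]
    omega
  obtain ⟨hfin, hd⟩ := hn_dim (K := K) (by omega : 1 < e) (idx he hn) hcard j
  unfold betti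
  rw [E.rank_eq, ← Module.finrank_eq_rank, hd]
  congr 3
  omega

/-- `β_j(2,4) = β_j(2,5) = j * C(e-2, j+1)` for all `e ≥ 6`, `j ≥ 1` and all fields. -/
theorem result (K : Type u) [Field K] (e : ℕ) (he : 6 ≤ e) (j : ℕ) (hj : 1 ≤ j) :
    betti K e 2 4 j = ((j * (e - 2).choose (j + 1) : ℕ) : Cardinal) ∧
    betti K e 2 5 j = ((j * (e - 2).choose (j + 1) : ℕ) : Cardinal) := by
  obtain ⟨i, rfl⟩ := Nat.exists_eq_add_of_le' hj
  exact ⟨betti_eq he (Or.inl rfl) i, betti_eq he (Or.inr rfl) i⟩

end Pool.Agent.Results.MP_c132d1_al.BettiS24
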